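import Mathlib
import Pool.Agent.H47.L.R_pool_sql_team_seeded_3997aac3.Q46.PIdx.CntB

/-! The second moment estimate. -/

set_option autoImplicit false
set_option linter.all false

open Matrix

namespace Pool.Agent.Q46.PIdx

open Pool.Agent.Y109.PI

section

variable {F : Type*} [Field F] [Fintype F] {I : Type*} [Fintype I] [DecidableEq I]
  {C : Type*} [AddCommGroup C] [Module F C] [Fintype C]

theorem goodv_smul {L : C →ₗ[F] altG F I} {x : I → F} (hx : goodv L x) {t : F} (ht : t ≠ 0) : goodv L (t • x) := by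
  intro c hc
  rw [Matrix.mulVec_smul, smul_eq_zero] at hc
  exact hx c (hc.resolve_left ht)

theorem not_goodv_zero [Nontrivial C] (L : C →ₗ[F] altG F I) : ¬ goodv L 0 := by
  intro h
  obtain ⟨c, hc⟩ := exists_ne (0 : C)
  exact hc (h c (Matrix.mulVec_zero _))

open Classical in
theorem D_bound [Nontrivial C] (L : C →ₗ[F] altG F I) (x : I → F) (hx : goodv L x) :
    (Nat.card F : ℚ) * ∑ y ∈ Finset.univ.filter (fun y : I → F => goodv L y ∧ ∀ t : F, y ≠ t • x), (dl L x y : ℚ) ≤
      Nat.card F * (Nat.card F : ℚ) ^ Fintype.card I - (Nat.card F : ℚ) ^ Fintype.card I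
        - (Nat.card F : ℚ) ^ 2 * Nat.card C +
        ((Finset.univ.filter (fun y : I → F => goodv L y)).card + 1) * Nat.card C := by
  have hx0 : x ≠ 0 := fun h => not_goodv_zero L (h ▸ hx)
  have hsum := dl_sum L x hx
  set S1 := Finset.univ.filter (fun y : I → F => goodv L y ∧ ∀ t : F, y ≠ t • x) with hS1
  set XX := Finset.univ.filter (fun y : I → F => goodv L y) with hXX
  let S2 : Finset (I → F) := Finset.univ.image fun t : F => t • x
  let S3 : Finset (I → F) := (Finset.univ \ XX).erase 0
  have h12 : Disjoint S1 S2 := by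
    rw [Finset.disjoint_left]
    intro y h1 h2
    rw [hS1, Finset.mem_filter] at h1
    obtain ⟨t, _, ht⟩ := Finset.mem_image.1 h2
    exact h1.2.2 t ht.symm
  have h123 : Disjoint (S1 ∪ S2) S3 := by
    rw [Finset.disjoint_left]
    intro y h1 h3
    rw [Finset.mem_erase, Finset.mem_sdiff, hXX, Finset.mem_filter] at h3
    have hy : ¬ goodv L y := fun h => h3.2.2 ⟨Finset.mem_univ _, h⟩
    rcases Finset.mem_union.1 h1 with h1 | h1
    · rw [hS1, Finset.mem_filter] at h1
      exact hy h1.2.1
    · obtain ⟨t, _, rfl⟩ := Finset.mem_image.1 h1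
      refine hy (goodv_smul hx ?_)
      rintro rfl
      exact h3.1 (zero_smul _ _)
  have hle : ∑ y ∈ S1, (dl L x y : ℚ) + ∑ y ∈ S2, (dl L x y : ℚ) + ∑ y ∈ S3, (dl L x y : ℚ) ≤
      ∑ y : I → F, (dl L x y : ℚ) := by
    rw [← Finset.sum_union h12, ← Finset.sum_union h123]
    exact Finset.sum_le_sum_of_subset_of_nonneg (Finset.subset_univ _) fun _ _ _ => Nat.cast_nonneg _
  have hq : (0 : ℚ) < Nat.card F := Nat.cast_pos.2 Nat.card_pos
  have h2 : ∑ y ∈ S2, (dl L x y : ℚ) = Nat.card F * Nat.card C := by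
    rw [Finset.sum_image]
    · simp only [dl_self]
      rw [Finset.sum_const, Finset.card_univ, nsmul_eq_mul, Nat.card_eq_fintype_card (α := F)]
    · intro a _ b _ hab
      exact smul_left_injective F hx0 hab
  have hXle : XX.card + 1 ≤ Fintype.card (I → F) := by
    have h5 : (insert (0 : I → F) XX).card = XX.card + 1 := by
      apply Finset.card_insert_of_notMem
      rw [hXX, Finset.mem_filter]
      exact fun h => not_goodv_zero L h.2
    rw [← h5]
    exact Finset.card_le_univ _
  have hS3 : (S3.card : ℚ) = (Nat.card F : ℚ) ^ Fintype.card I - XX.card - 1 := by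
    have h4 : (0 : I → F) ∈ Finset.univ \ XX := by
      rw [Finset.mem_sdiff, hXX, Finset.mem_filter]
      exact ⟨Finset.mem_univ _, fun h => not_goodv_zero L h.2⟩
    have h6 : (S3.card : ℚ) = ((Fintype.card (I → F) - XX.card - 1 : ℕ) : ℚ) := by
      congr 1
      rw [Finset.card_erase_of_mem h4, Finset.card_sdiff_of_subset (Finset.subset_univ _), Finset.card_univ]
    rw [h6, Nat.cast_sub (by omega), Nat.cast_sub (by omega), Fintype.card_fun, Nat.card_eq_fintype_card (α := F)]
    push_cast
    ring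
  have h3 : (S3.card : ℚ) * Nat.card C ≤ Nat.card F * ∑ y ∈ S3, (dl L x y : ℚ) := by
    rw [Finset.mul_sum, ← nsmul_eq_mul]
    refine Finset.card_nsmul_le_sum _ _ _ fun y _ => ?_
    exact_mod_cast dl_ge L x y
  have h4 : (Nat.card F : ℚ) * (∑ y ∈ S1, (dl L x y : ℚ) + ∑ y ∈ S2, (dl L x y : ℚ) + ∑ y ∈ S3, (dl L x y : ℚ)) ≤
      Nat.card F * ∑ y : I → F, (dl L x y : ℚ) := mul_le_mul_of_nonneg_left hle hq.le
  rw [hsum, h2] at h4
  rw [hS3] at h3
  nlinarith [h3, h4]

open Classical in
/-- the sum over the second pair -/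
theorem pair_bound [Nontrivial C] (L : C →ₗ[F] altG F I) (x : I → F) (hx : goodv L x) (c : C) :
    ∑ y ∈ Finset.univ.filter (fun y : I → F => goodv L y), ∑ c' : C, ∑ ω, fi L ω (c, x) * fi L ω (c', y) ≤
      (Nat.card F - 1) * (Nat.card (LinearMap.ker (ev (F := F) x)) : ℚ) +
        (Nat.card (altG F I) * (Nat.card F : ℚ) ^ 3 / (Nat.card F : ℚ) ^ (2 * Fintype.card I)) *
          ∑ y ∈ Finset.univ.filter (fun y : I → F => goodv L y ∧ ∀ t : F, y ≠ t • x), (dl L x y : ℚ) := by
  have hx0 : x ≠ 0 := fun h => not_goodv_zero L (h ▸ hx)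
  have hq : (0 : ℚ) < Nat.card F := Nat.cast_pos.2 Nat.card_pos
  rw [← Finset.sum_filter_add_sum_filter_not (Finset.univ.filter (fun y : I → F => goodv L y)) (fun y => ∃ t : F, y = t • x)]
  refine add_le_add ?_ ?_
  · -- dependent vectors
    have h1 : ((Finset.univ.filter (fun y : I → F => goodv L y)).filter (fun y => ∃ t : F, y = t • x)).card ≤
        Nat.card F - 1 := by
      have h2 : (Finset.univ.filter (fun y : I → F => goodv L y)).filter (fun y => ∃ t : F, y = t • x) ⊆
          (Finset.univ.erase (0 : F)).image fun t => t • x := by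
        intro y hy
        rw [Finset.mem_filter, Finset.mem_filter] at hy
        obtain ⟨⟨_, hy1⟩, t, rfl⟩ := hy
        refine Finset.mem_image.2 ⟨t, Finset.mem_erase.2 ⟨?_, Finset.mem_univ _⟩, rfl⟩
        rintro rfl
        rw [zero_smul] at hy1
        exact not_goodv_zero L hy1
      refine (Finset.card_le_card h2).trans (Finset.card_image_le.trans ?_)
      rw [Finset.card_erase_of_mem (Finset.mem_univ _), Finset.card_univ, Nat.card_eq_fintype_card]
    have h1' : (((Finset.univ.filter (fun y : I → F => goodv L y)).filter (fun y => ∃ t : F, y = t • x)).card : ℚ) ≤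
        Nat.card F - 1 := by
      have h3 := Nat.cast_le (α := ℚ).2 h1
      rwa [Nat.cast_sub Nat.card_pos, Nat.cast_one] at h3
    have h4 : ∀ y ∈ (Finset.univ.filter (fun y : I → F => goodv L y)).filter (fun y => ∃ t : F, y = t • x),
        ∑ c' : C, ∑ ω, fi L ω (c, x) * fi L ω (c', y) ≤ (Nat.card (LinearMap.ker (ev (F := F) x)) : ℚ) := by
      intro y hy
      rw [Finset.mem_filter, Finset.mem_filter] at hy
      obtain ⟨⟨_, hy1⟩, t, rfl⟩ := hy
      have ht : t ≠ 0 := by
        rintro rfl
        rw [zero_smul] at hy1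
        exact not_goodv_zero L hy1
      rw [Finset.sum_eq_single c]
      · rw [← sum_one L c x]
        refine Finset.sum_le_sum fun ω _ => ?_
        have h5 : fi L ω (c, t • x) ≤ 1 := by unfold fi; split_ifs <;> norm_num
        calc fi L ω (c, x) * fi L ω (c, t • x) ≤ fi L ω (c, x) * 1 :=
              mul_le_mul_of_nonneg_left h5 (fi_nonneg L ω _)
          _ = _ := mul_one _
      · intro c' _ hc'
        refine Finset.sum_eq_zero fun ω _ => ?_
        by_cases ha : (ω + L c).1 *ᵥ x = 0
        · have hb : ¬ (ω + L c').1 *ᵥ (t • x) = 0 := by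
            intro hb
            rw [Matrix.mulVec_smul, smul_eq_zero] at hb
            have hb := hb.resolve_left ht
            apply hc'
            have h6 : (L (c' - c)).1 *ᵥ x = 0 := by
              have e1 : (L (c' - c)).1 = (ω + L c').1 - (ω + L c).1 := by
                rw [map_sub, Submodule.coe_sub, Submodule.coe_add, Submodule.coe_add]; abel
              rw [e1, Matrix.sub_mulVec, hb, ha, sub_zero]
            exact sub_eq_zero.1 (hx _ h6)
          have e2 : fi L ω (c', t • x) = 0 := if_neg hb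
          rw [e2, mul_zero]
        · have e2 : fi L ω (c, x) = 0 := if_neg ha
          rw [e2, zero_mul]
      · intro h; exact absurd (Finset.mem_univ _) h
    calc _ ≤ ∑ y ∈ (Finset.univ.filter (fun y : I → F => goodv L y)).filter (fun y => ∃ t : F, y = t • x),
          (Nat.card (LinearMap.ker (ev (F := F) x)) : ℚ) := Finset.sum_le_sum h4
      _ = (((Finset.univ.filter (fun y : I → F => goodv L y)).filter (fun y => ∃ t : F, y = t • x)).card : ℚ) *
          (Nat.card (LinearMap.ker (ev (F := F) x)) : ℚ) := by rw [Finset.sum_const, nsmul_eq_mul]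
      _ ≤ _ := mul_le_mul_of_nonneg_right h1' (Nat.cast_nonneg _)
  · -- independent vectors
    rw [Finset.filter_filter, Finset.mul_sum]
    have e0 : (Finset.univ.filter fun y : I → F => goodv L y ∧ ¬ ∃ t : F, y = t • x) =
        Finset.univ.filter (fun y : I → F => goodv L y ∧ ∀ t : F, y ≠ t • x) := by
      refine Finset.filter_congr fun y _ => ?_
      push Not
      rfl
    rw [e0]
    refine Finset.sum_le_sum fun y hy => ?_
    rw [Finset.mem_filter] at hy
    have h1 := card_alt2 hx0 hy.2.2
    have h2 : (Nat.card (LinearMap.ker ((ev (F := F) x).prod (ev y))) : ℚ) ≤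
        Nat.card (altG F I) * (Nat.card F : ℚ) ^ 3 / (Nat.card F : ℚ) ^ (2 * Fintype.card I) := by
      rw [le_div_iff₀ (by positivity)]
      exact_mod_cast h1
    calc ∑ c' : C, ∑ ω, fi L ω (c, x) * fi L ω (c', y)
        ≤ ∑ c' : C, if x ⬝ᵥ ((L (c - c')).1 *ᵥ y) = 0 then
            (Nat.card (LinearMap.ker ((ev (F := F) x).prod (ev y))) : ℚ) else 0 :=
          Finset.sum_le_sum fun c' _ => sum_two L c c' x y
      _ = ∑ d : C, if x ⬝ᵥ ((L d).1 *ᵥ y) = 0 then
            (Nat.card (LinearMap.ker ((ev (F := F) x).prod (ev y))) : ℚ) else 0 :=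
          Fintype.sum_equiv (Equiv.subLeft c) _ _ fun d => rfl
      _ = (Nat.card (LinearMap.ker ((ev (F := F) x).prod (ev y))) : ℚ) * dl L x y := by
          rw [dl_eq, Finset.mul_sum]
          refine Finset.sum_congr rfl fun d _ => ?_
          rw [mul_ite, mul_one, mul_zero]
      _ ≤ _ := mul_le_mul_of_nonneg_right h2 (Nat.cast_nonneg _)

end

end Pool.Agent.Q46.PIdx
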