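import Mathlib
import Pool.Agent.H47.L.R_pool_sql_team_seeded_3997aac3.Q46.PIdx.CntD

/-! The number of matrices without degenerate translates: explicit bounds. -/

set_option autoImplicit false
set_option linter.all false

open Matrix

namespace Pool.Agent.Q46.PIdx

open Pool.Agent.Y109.PI

section

variable {F : Type*} [Field F] [Fintype F] {I : Type*} [Fintype I] [DecidableEq I]
  {C : Type*} [AddCommGroup C] [Module F C] [Fintype C]

/-- the matrices without degenerate translates -/
def badM (L : C →ₗ[F] altG F I) : Set (altG F I) := {ω | ∀ c, (ω + L c).1.det ≠ 0}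

theorem one_lt_q : 1 < Nat.card F := by
  rw [Nat.card_eq_fintype_card]
  exact Fintype.one_lt_card

theorem dim_le [Nontrivial C] (L : C →ₗ[F] altG F I) (x : I → F) (hx : goodv L x) :
    Nat.card C * Nat.card F ≤ Nat.card F ^ Fintype.card I := by
  have hx0 : x ≠ 0 := fun h => not_goodv_zero L (h ▸ hx)
  rw [← card_dt hx0]
  refine Nat.mul_le_mul_right _ ?_
  refine Nat.card_le_card_of_injective (fun c : C => (⟨(L c).1 *ᵥ x, ?_⟩ : LinearMap.ker (dt x))) ?_
  · rw [LinearMap.mem_ker, dt_apply]
    exact alt_dot_self (L c).2 x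
  · intro c c' h
    have h1 : (L c).1 *ᵥ x = (L c').1 *ᵥ x := congrArg Subtype.val h
    have h2 : (L (c - c')).1 *ᵥ x = 0 := by
      rw [map_sub, Submodule.coe_sub, Matrix.sub_mulVec, h1, sub_self]
    exact sub_eq_zero.1 (hx _ h2)

/-- **the general bound** -/
theorem bad_le [Nontrivial C] (L : C →ₗ[F] altG F I) (r : ℕ) (hr : Nat.card C = Nat.card F ^ r) :
    Nat.card (badM L) * (Nat.card {x : I → F // goodv L x} +
        (Nat.card F ^ 2 - 1) * (Nat.card F ^ (Fintype.card I - r - 1) - 1)) ≤
      (Nat.card F ^ 2 - 1) * (Nat.card F ^ (Fintype.card I - r - 1) - 1) * Nat.card (altG F I) := by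
  classical
  have hbM : Nat.card (badM L) ≤ Nat.card (altG F I) :=
    Nat.card_le_card_of_injective _ Subtype.val_injective
  rcases Nat.eq_zero_or_pos (Nat.card {x : I → F // goodv L x}) with hA | hA
  · rw [hA, zero_add, mul_comm]
    exact Nat.mul_le_mul_left _ hbM
  · have hA2 : Nat.card {x : I → F // goodv L x} = (Finset.univ.filter (fun y : I → F => goodv L y)).card := by
      rw [Nat.card_eq_fintype_card, Fintype.card_subtype]
    obtain ⟨x0, hx0⟩ : ∃ x : I → F, goodv L x := by
      have := (Nat.card_pos_iff.1 hA).1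
      exact ⟨_, (Classical.arbitrary {x : I → F // goodv L x}).2⟩
    have hdim := dim_le L x0 hx0
    have hq1 : 1 < Nat.card F := one_lt_q
    have hrn : r + 1 ≤ Fintype.card I := by
      rw [hr, ← pow_succ] at hdim
      exact (Nat.pow_le_pow_iff_right hq1).1 hdim
    have hmain := cnt_main L (hA2 ▸ hA)
    have hG : Nat.card (badM L) + (Finset.univ.filter fun ω : altG F I =>
        ∃ (c : C) (x : I → F), x ≠ 0 ∧ (ω + L c).1 *ᵥ x = 0).card = Nat.card (altG F I) := by
      have h1 : Nat.card (badM L) = (Finset.univ.filter fun ω : altG F I =>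
          ¬ ∃ (c : C) (x : I → F), x ≠ 0 ∧ (ω + L c).1 *ᵥ x = 0).card := by
        rw [← Fintype.card_subtype, ← Nat.card_eq_fintype_card]
        refine Nat.card_congr (Equiv.subtypeEquivRight fun ω => ?_)
        rw [badM, Set.mem_setOf_eq]
        constructor
        · rintro h ⟨c, x, hx, hcx⟩
          exact h c (Matrix.exists_mulVec_eq_zero_iff.1 ⟨x, hx, hcx⟩)
        · intro h c hc
          obtain ⟨x, hx, hcx⟩ := Matrix.exists_mulVec_eq_zero_iff.2 hc
          exact h ⟨c, x, hx, hcx⟩
      rw [h1, add_comm, Finset.card_filter_add_card_filter_not, Finset.card_univ, Nat.card_eq_fintype_card]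
    set G := (Finset.univ.filter fun ω : altG F I =>
        ∃ (c : C) (x : I → F), x ≠ 0 ∧ (ω + L c).1 *ᵥ x = 0).card
    rw [← hA2] at hmain
    set A := Nat.card {x : I → F // goodv L x}
    set M := Nat.card (altG F I)
    set b := Nat.card (badM L)
    set q := Nat.card F
    obtain ⟨k, hk⟩ := Nat.exists_eq_add_of_le hrn
    have hk' : Fintype.card I - r - 1 = k := by omega
    rw [hk']
    rw [hk, hr] at hmain
    have hq2 : 1 ≤ q ^ 2 := Nat.one_le_pow _ _ (by omega)
    have hqk : 1 ≤ q ^ k := Nat.one_le_pow _ _ (by omega)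
    have hqr : (0 : ℚ) < (q : ℚ) ^ (r + 1) := by positivity
    have hG' : (G : ℚ) = M - b := by
      have : (b : ℚ) + G = M := by exact_mod_cast hG
      linarith
    have h2 : (q : ℚ) ^ (r + 1) * ((A : ℚ) * M) ≤
        (q : ℚ) ^ (r + 1) * ((M - b) * (A + (q ^ 2 - 1) * (q ^ k - 1))) := by
      calc (q : ℚ) ^ (r + 1) * ((A : ℚ) * M) = ((q ^ r : ℕ) : ℚ) * A * M * q := by push_cast; ring
        _ ≤ _ := hmain
        _ = _ := by rw [hG']; push_cast; ring
    have h3 := le_of_mul_le_mul_left h2 hqr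
    have h4 : ((b * (A + (q ^ 2 - 1) * (q ^ k - 1)) : ℕ) : ℚ) ≤ (((q ^ 2 - 1) * (q ^ k - 1) * M : ℕ) : ℚ) := by
      push_cast [Nat.cast_sub hq2, Nat.cast_sub hqk]
      nlinarith [h3]
    exact_mod_cast h4

/-- the kernel of a nonzero alternating matrix is small -/
theorem card_ker_le (E : altG F I) (hE : E ≠ 0) :
    Nat.card {x : I → F // E.1 *ᵥ x = 0} * Nat.card F ^ 2 ≤ Nat.card F ^ Fintype.card I := by
  obtain ⟨u, v, huv⟩ : ∃ u v, E.1 u v ≠ 0 := by
    by_contra h
    push Not at h
    exact hE (Subtype.ext (by ext u v; exact h u v))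
  have hvu : E.1 v u ≠ 0 := by rw [E.2.2 v u]; exact neg_ne_zero.2 huv
  let φ : (I → F) →ₗ[F] F × F := ((LinearMap.proj u).prod (LinearMap.proj v)).comp (Matrix.mulVecLin E.1)
  have hφ : ∀ x, φ x = ((E.1 *ᵥ x) u, (E.1 *ᵥ x) v) := fun x => rfl
  have hsurj : LinearMap.range φ = ⊤ := by
    rw [LinearMap.range_eq_top]
    rintro ⟨a, b⟩
    refine ⟨Pi.single v (a / E.1 u v) + Pi.single u (b / E.1 v u), ?_⟩
    rw [hφ, Matrix.mulVec_add, Pi.add_apply, Pi.add_apply]
    simp only [Matrix.mulVec_single, Matrix.col_apply, Pi.smul_apply, MulOpposite.smul_eq_mul_unop,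
      MulOpposite.unop_op, E.2.1 u, E.2.1 v, zero_mul, add_zero, zero_add]
    rw [mul_div_cancel₀ _ huv, mul_div_cancel₀ _ hvu]
  have h1 := card_ker_range φ
  rw [hsurj, Nat.card_congr (Submodule.topEquiv (R := F) (M := F × F)).toEquiv, Nat.card_prod, Nat.card_fun,
    Nat.card_eq_fintype_card (α := I)] at h1
  have h2 : Nat.card {x : I → F // E.1 *ᵥ x = 0} ≤ Nat.card (LinearMap.ker φ) := by
    refine Nat.card_le_card_of_injective (fun x => (⟨x.1, ?_⟩ : LinearMap.ker φ)) ?_
    · rw [LinearMap.mem_ker, hφ, x.2]; rfl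
    · intro a b h
      exact Subtype.ext (congrArg (fun y : LinearMap.ker φ => (y : I → F)) h)
  calc Nat.card {x : I → F // E.1 *ᵥ x = 0} * Nat.card F ^ 2
      ≤ Nat.card (LinearMap.ker φ) * Nat.card F ^ 2 := Nat.mul_le_mul_right _ h2
    _ = _ := by rw [← h1]; ring

/-- the number of vectors on which some nonzero element vanishes -/
theorem bad_vec [Nontrivial C] (L : C →ₗ[F] altG F I) (hL : Function.Injective L) :
    (Nat.card F - 1) * (Nat.card {x : I → F // ¬ goodv L x} * Nat.card F ^ 2) ≤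
      (Nat.card C - 1) * Nat.card F ^ Fintype.card I := by
  classical
  have hq1 : 1 < Nat.card F := one_lt_q
  -- pairs (x, c) with c ≠ 0
  let T : Finset ((I → F) × C) := Finset.univ.filter fun p => p.2 ≠ 0 ∧ (L p.2).1 *ᵥ p.1 = 0
  have h1 : (Nat.card F - 1) * Nat.card {x : I → F // ¬ goodv L x} ≤ T.card := by
    have h0 : T.card = ∑ x : I → F, (Finset.univ.filter fun c : C => c ≠ 0 ∧ (L c).1 *ᵥ x = 0).card := by
      simp only [T, Finset.card_filter]
      rw [Fintype.sum_prod_type]
    rw [h0, Nat.card_eq_fintype_card (α := {x : I → F // ¬ goodv L x}), Fintype.card_subtype, mul_comm,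
      ← smul_eq_mul]
    refine (Finset.card_nsmul_le_sum _ (fun x : I → F => (Finset.univ.filter fun c : C =>
      c ≠ 0 ∧ (L c).1 *ᵥ x = 0).card) _ fun x hx => ?_).trans
      (Finset.sum_le_sum_of_subset (Finset.subset_univ _))
    rw [Finset.mem_filter] at hx
    have hx2 := hx.2
    rw [goodv] at hx2
    push Not at hx2
    obtain ⟨c, hc, hc0⟩ := hx2
    have h2 : ((Finset.univ.erase (0 : F)).image fun t => t • c) ⊆
        (Finset.univ.filter fun c : C => c ≠ 0 ∧ (L c).1 *ᵥ x = 0) := by
      intro d hd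
      obtain ⟨t, ht, rfl⟩ := Finset.mem_image.1 hd
      rw [Finset.mem_filter]
      refine ⟨Finset.mem_univ _, smul_ne_zero (Finset.ne_of_mem_erase ht) hc0, ?_⟩
      rw [map_smul, Submodule.coe_smul, Matrix.smul_mulVec, hc, smul_zero]
    have h3 := Finset.card_le_card h2
    rw [Finset.card_image_of_injective _ (smul_left_injective F hc0), Finset.card_erase_of_mem (Finset.mem_univ _),
      Finset.card_univ, ← Nat.card_eq_fintype_card] at h3
    exact h3
  have h2 : T.card * Nat.card F ^ 2 ≤ (Nat.card C - 1) * Nat.card F ^ Fintype.card I := by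
    have h0 : T.card = ∑ c : C, if c = 0 then 0 else Nat.card {x : I → F // (L c).1 *ᵥ x = 0} := by
      simp only [T, Finset.card_filter]
      rw [Fintype.sum_prod_type_right]
      refine Finset.sum_congr rfl fun c _ => ?_
      by_cases hc : c = 0
      · simp [hc]
      · simp only [hc, ne_eq, not_false_eq_true, true_and, if_false]
        rw [← Finset.card_filter, Nat.card_eq_fintype_card, Fintype.card_subtype]
    rw [h0, Finset.sum_mul, ← Finset.add_sum_erase _ _ (Finset.mem_univ (0 : C)), if_pos rfl, zero_mul, zero_add]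
    have h3 : ∀ c ∈ Finset.univ.erase (0 : C), (if c = 0 then 0 else Nat.card {x : I → F // (L c).1 *ᵥ x = 0}) *
        Nat.card F ^ 2 ≤ Nat.card F ^ Fintype.card I := by
      intro c hc
      rw [if_neg (Finset.ne_of_mem_erase hc)]
      exact card_ker_le _ fun h => Finset.ne_of_mem_erase hc (hL (by rw [h, map_zero]))
    refine (Finset.sum_le_card_nsmul _ _ _ h3).trans ?_
    rw [Finset.card_erase_of_mem (Finset.mem_univ _), Finset.card_univ, smul_eq_mul, ← Nat.card_eq_fintype_card]
  calc (Nat.card F - 1) * (Nat.card {x : I → F // ¬ goodv L x} * Nat.card F ^ 2)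
      = ((Nat.card F - 1) * Nat.card {x : I → F // ¬ goodv L x}) * Nat.card F ^ 2 := by ring
    _ ≤ T.card * Nat.card F ^ 2 := Nat.mul_le_mul_right _ h1
    _ ≤ _ := h2

theorem card_good_add (L : C →ₗ[F] altG F I) :
    Nat.card {x : I → F // goodv L x} + Nat.card {x : I → F // ¬ goodv L x} = Nat.card F ^ Fintype.card I := by
  classical
  rw [Nat.card_eq_fintype_card, Nat.card_eq_fintype_card, Fintype.card_subtype_compl, Nat.card_eq_fintype_card,
    Nat.add_sub_cancel' (Fintype.card_subtype_le _), Fintype.card_fun]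

end

end Pool.Agent.Q46.PIdx
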