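import Mathlib
import Pool.Agent.H47.L.R_pool_sql_team_seeded_3997aac3.Q46.PIdx.CntE

/-! The number of matrices without degenerate translates: special cases. -/

set_option autoImplicit false
set_option linter.all false

open Matrix

namespace Pool.Agent.Q46.PIdx

open Pool.Agent.Y109.PI

section

variable {F : Type*} [Field F] [Fintype F] {I : Type*} [Fintype I] [DecidableEq I]
  {C : Type*} [AddCommGroup C] [Module F C] [Fintype C]

theorem not_good_pos [Nontrivial C] (L : C →ₗ[F] altG F I) : 0 < Nat.card {x : I → F // ¬ goodv L x} := by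
  haveI : Nonempty {x : I → F // ¬ goodv L x} := ⟨⟨0, not_goodv_zero L⟩⟩
  exact Nat.card_pos

/-- one relation: fewer than half of the matrices have no degenerate translate -/
theorem half [Nontrivial C] (L : C →ₗ[F] altG F I) (hL : Function.Injective L) (hC : Nat.card C = Nat.card F) :
    2 * Nat.card (badM L) < Nat.card (altG F I) := by
  have hq1 : 1 < Nat.card F := one_lt_q
  have h1 := bad_vec L hL
  have h2 := card_good_add L
  have h3 := not_good_pos L
  have h4 := bad_le L 1 (by rw [hC, pow_one])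
  have hM : 0 < Nat.card (altG F I) := Nat.card_pos
  set A := Nat.card {x : I → F // goodv L x}
  set B := Nat.card {x : I → F // ¬ goodv L x}
  set M := Nat.card (altG F I)
  set b := Nat.card (badM L)
  set q := Nat.card F
  rw [hC] at h1
  have h5 : B * q ^ 2 ≤ q ^ Fintype.card I := Nat.le_of_mul_le_mul_left h1 (by omega)
  have hn : 2 ≤ Fintype.card I := by
    refine (Nat.pow_le_pow_iff_right hq1).1 (le_trans ?_ h5)
    exact Nat.le_mul_of_pos_left _ h3
  obtain ⟨k, hk⟩ := Nat.exists_eq_add_of_le hn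
  rw [hk] at h2 h5 h4
  have e1 : 2 + k - 1 - 1 = k := by omega
  rw [e1] at h4
  have h6 : B ≤ q ^ k := by
    have : q ^ 2 * B ≤ q ^ 2 * q ^ k := by rw [← pow_add, mul_comm]; exact h5
    exact Nat.le_of_mul_le_mul_left this (by positivity)
  have hqk : 1 ≤ q ^ k := Nat.one_le_pow _ _ (by omega)
  have hq2 : 1 < q ^ 2 := Nat.one_lt_pow (by norm_num) hq1
  obtain ⟨s, hs⟩ := Nat.exists_eq_add_of_le hqk
  obtain ⟨t, ht⟩ := Nat.exists_eq_add_of_lt hq2
  have h7 : A + B = (1 + t + 1) * (1 + s) := by rw [h2, pow_add, ht, hs]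
  rw [hs] at h6 h4
  rw [ht] at h4
  have e2 : 1 + t + 1 - 1 = t + 1 := by omega
  have e3 : 1 + s - 1 = s := by omega
  rw [e2, e3] at h4
  have h8 : (t + 1) * (1 + s) ≤ A := by nlinarith
  have h9 : b * ((t + 1) * (1 + s) + (t + 1) * s) ≤ (t + 1) * s * M :=
    (Nat.mul_le_mul_left b (Nat.add_le_add_right h8 _)).trans h4
  have h10 : b * (1 + 2 * s) ≤ s * M := by
    have : (t + 1) * (b * (1 + 2 * s)) ≤ (t + 1) * (s * M) := by nlinarith
    exact Nat.le_of_mul_le_mul_left this (by omega)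
  by_contra hcon
  push Not at hcon
  nlinarith

theorem two_aux (b A Z M c : ℕ) (h : b * (A + Z) ≤ Z * M) (hAZ : 0 < A + Z) (hc : c * Z ≤ A + Z) : c * b ≤ M := by
  have h1 : (A + Z) * (c * b) ≤ (A + Z) * M :=
    calc (A + Z) * (c * b) = c * (b * (A + Z)) := by ring
      _ ≤ c * (Z * M) := Nat.mul_le_mul_left _ h
      _ = (c * Z) * M := by ring
      _ ≤ (A + Z) * M := Nat.mul_le_mul_right _ hc
  exact Nat.le_of_mul_le_mul_left h1 hAZ

/-- two relations -/
theorem two [Nontrivial C] (L : C →ₗ[F] altG F I) (hL : Function.Injective L) (hC : Nat.card C = Nat.card F ^ 2) :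
    (Nat.card F - 1) * Nat.card (badM L) ≤ Nat.card (altG F I) := by
  have hq1 : 1 < Nat.card F := one_lt_q
  have h1 := bad_vec L hL
  have h2 := card_good_add L
  have h4 := bad_le L 2 hC
  have hdim := dim_le L
  obtain ⟨t, ht⟩ := Nat.exists_eq_add_of_lt hq1
  set A := Nat.card {x : I → F // goodv L x} with hA
  set B := Nat.card {x : I → F // ¬ goodv L x}
  set M := Nat.card (altG F I)
  set b := Nat.card (badM L)
  set q := Nat.card F
  rw [hC] at h1 hdim
  have e0 : q ^ 2 - 1 = (q - 1) * (q + 1) := by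
    rw [ht]
    have : 1 + t + 1 - 1 = t + 1 := by omega
    rw [this]
    have h : (1 + t + 1) ^ 2 = (t + 1) * (1 + t + 1 + 1) + 1 := by ring
    rw [h]; omega
  have h5 : B * q ^ 2 ≤ (q + 1) * q ^ Fintype.card I := by
    rw [e0, mul_assoc] at h1
    exact Nat.le_of_mul_le_mul_left h1 (by omega)
  have hqn : 0 < q ^ Fintype.card I := by positivity
  have h6 : q ^ Fintype.card I * (q ^ 2 - q - 1) ≤ A * q ^ 2 := by
    have e1 : q ^ 2 = (q ^ 2 - q - 1) + (q + 1) := by
      have : q + 1 ≤ q ^ 2 := by nlinarith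
      omega
    have h7 : A * q ^ 2 + B * q ^ 2 = q ^ Fintype.card I * (q ^ 2 - q - 1) + q ^ Fintype.card I * (q + 1) := by
      rw [← add_mul, h2, ← mul_add, ← e1]
    have h8 : q ^ Fintype.card I * (q + 1) = (q + 1) * q ^ Fintype.card I := mul_comm _ _
    omega
  have hpos : 0 < q ^ 2 - q - 1 := by
    have : q + 1 < q ^ 2 := by nlinarith
    omega
  have hA0 : 0 < A := by
    rcases Nat.eq_zero_or_pos A with h | h
    · rw [h, zero_mul] at h6
      have := Nat.mul_pos hqn hpos
      omega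
    · exact h
  obtain ⟨x0, hx0⟩ : ∃ x : I → F, goodv L x := by
    have := (Nat.card_pos_iff.1 hA0).1
    exact ⟨_, (Classical.arbitrary {x : I → F // goodv L x}).2⟩
  have hn : 3 ≤ Fintype.card I := by
    have := hdim x0 hx0
    rw [← pow_succ] at this
    exact (Nat.pow_le_pow_iff_right hq1).1 this
  obtain ⟨k, hk⟩ := Nat.exists_eq_add_of_le hn
  rw [hk] at h6 h4
  have e1 : 3 + k - 2 - 1 = k := by omega
  rw [e1] at h4
  have hqk : 1 ≤ q ^ k := Nat.one_le_pow _ _ (by omega)
  have h7 : q ^ (k + 1) * (q ^ 2 - q - 1) ≤ A := by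
    have : q ^ 2 * (q ^ (k + 1) * (q ^ 2 - q - 1)) ≤ q ^ 2 * A := by
      rw [← mul_assoc, ← pow_add, mul_comm (q ^ 2) A]
      have : 2 + (k + 1) = 3 + k := by ring
      rw [this]; exact h6
    exact Nat.le_of_mul_le_mul_left this (by positivity)
  refine two_aux b A _ M (q - 1) h4 (by omega) ?_
  -- (q - 1) Z ≤ A + Z
  obtain ⟨s, hs⟩ := Nat.exists_eq_add_of_le hqk
  have e3 : q ^ k - 1 = s := by omega
  have e4 : q ^ 2 - q - 1 = t * (t + 3) + 1 := by
    rw [ht]
    have h : (1 + t + 1) ^ 2 = (t * (t + 3) + 1) + 1 + (1 + t + 1) := by ring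
    rw [h]; omega
  have e5 : q - 1 = t + 1 := by omega
  have e6 : q ^ (k + 1) = (1 + s) * (t + 2) := by rw [pow_succ, hs, ht]; ring
  rw [e6, e4] at h7
  rw [e0, e3, e5]
  have e7 : q + 1 = t + 3 := by omega
  rw [e7]
  nlinarith [Nat.zero_le (t * s), Nat.zero_le (t * t * s), Nat.zero_le (t * t), Nat.zero_le s]

/-- all nonzero elements nondegenerate -/
theorem inert [Nontrivial C] [Nonempty I] (L : C →ₗ[F] altG F I) (hL : ∀ c, c ≠ 0 → (L c).1.det ≠ 0) (r : ℕ)
    (hC : Nat.card C = Nat.card F ^ r) :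
    (Nat.card F ^ (r - 1) + 1) * Nat.card (badM L) ≤ Nat.card (altG F I) := by
  have hq1 : 1 < Nat.card F := one_lt_q
  have hgood : ∀ x : I → F, goodv L x ↔ x ≠ 0 := by
    intro x
    constructor
    · rintro h rfl
      exact not_goodv_zero L h
    · intro hx c hc
      by_contra hc0
      exact hL c hc0 (Matrix.exists_mulVec_eq_zero_iff.1 ⟨x, hx, hc⟩)
  have h2 := card_good_add L
  have hB : Nat.card {x : I → F // ¬ goodv L x} = 1 := by
    have : ∀ x : I → F, ¬ goodv L x ↔ x = 0 := fun x => by rw [hgood, not_not]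
    rw [Nat.card_congr (Equiv.subtypeEquivRight this)]
    exact Nat.card_unique
  have h4 := bad_le L r hC
  have hr : 1 ≤ r := by
    rcases Nat.eq_zero_or_pos r with h | h
    · rw [h, pow_zero] at hC
      have := Finite.one_lt_card (α := C)
      omega
    · exact h
  obtain ⟨i⟩ := ‹Nonempty I›
  have hdim := dim_le L (Pi.single i 1) ((hgood _).2 (by
    intro h
    have := congrFun h i
    rw [Pi.single_eq_same, Pi.zero_apply] at this
    exact one_ne_zero this))
  rw [hC, ← pow_succ] at hdim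
  have hn : r + 1 ≤ Fintype.card I := (Nat.pow_le_pow_iff_right hq1).1 hdim
  obtain ⟨k, hk⟩ := Nat.exists_eq_add_of_le hn
  obtain ⟨r', rfl⟩ := Nat.exists_eq_add_of_le hr
  set A := Nat.card {x : I → F // goodv L x} with hA
  set M := Nat.card (altG F I)
  set b := Nat.card (badM L)
  set q := Nat.card F
  rw [hB, hk] at h2
  rw [hk] at h4
  have e1 : 1 + r' + 1 + k - (1 + r') - 1 = k := by omega
  rw [e1] at h4
  have e2 : 1 + r' - 1 = r' := by omega
  rw [e2]
  have hqk : 1 ≤ q ^ k := Nat.one_le_pow _ _ (by omega)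
  have hqr : 1 ≤ q ^ r' := Nat.one_le_pow _ _ (by omega)
  have hq2 : 1 < q ^ 2 := Nat.one_lt_pow (by norm_num) hq1
  have e3 : q ^ (1 + r' + 1 + k) = q ^ 2 * q ^ r' * q ^ k := by ring
  rw [e3] at h2
  refine two_aux b A _ M _ h4 ?_ ?_
  · have : 1 < q ^ 2 * q ^ r' * q ^ k := by
      rw [← pow_add, ← pow_add]
      exact Nat.one_lt_pow (by omega) hq1
    omega
  · obtain ⟨s, hs⟩ := Nat.exists_eq_add_of_le hqk
    obtain ⟨t, ht⟩ := Nat.exists_eq_add_of_lt hq2
    obtain ⟨v, hv⟩ := Nat.exists_eq_add_of_le hqr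
    rw [hs, ht, hv] at h2
    have e4 : q ^ k - 1 = s := by omega
    have e5 : q ^ 2 - 1 = t + 1 := by omega
    rw [e4, e5, hv]
    nlinarith [Nat.zero_le (t * s), Nat.zero_le (t * v), Nat.zero_le (v * s), Nat.zero_le (t * v * s)]

end

end Pool.Agent.Q46.PIdx
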